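import Pool.Agent.H164R3.SprMain

/-!
# MP_07ff6b_an : discretizing continuous frames with stable phase retrieval in `L_1` and `L_2`

The question is answered positively: for all `C, β > 0` there are `D, κ > 0` such that for every
`n` some `m ≤ D n` works for all `n`-dimensional Hilbert spaces, all probability spaces and all
continuous Parseval frames as in the problem.
-/

open MeasureTheory

universe u v w

namespace Pool.Agent.Results.MP_07ff6b_an.DiscreteSPR

/-- The family `(x_t)` in `H`, indexed by the probability space `(Ω, μ)`, is a continuous Parseval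
frame: `t ↦ ⟨v, x_t⟩` is measurable and `∫ |⟨v, x_t⟩|² dμ(t) = ‖v‖²` for each `v`.
(Mathlib's `inner` is conjugate-linear in the first variable, so the scalar product `⟨v, x_t⟩`,
linear in `v`, is `inner 𝕜 (x t) v`.) -/
structure IsParsevalFrame (𝕜 : Type*) [RCLike 𝕜] {H : Type*} [NormedAddCommGroup H]
    [InnerProductSpace 𝕜 H] {Ω : Type*} [MeasurableSpace Ω] (μ : Measure Ω) (x : Ω → H) :
    Prop where
  measurable : ∀ v : H, Measurable fun t => inner 𝕜 (x t) v
  parseval : ∀ v : H, ∫⁻ t, ‖inner 𝕜 (x t) v‖ₑ ^ 2 ∂μ = ENNReal.ofReal (‖v‖ ^ 2)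

/-- The analysis operator `Θ v = (⟨v, x_t⟩)_t`. -/
def analysis (𝕜 : Type*) [RCLike 𝕜] {H : Type*} [NormedAddCommGroup H]
    [InnerProductSpace 𝕜 H] {Ω : Type*} (x : Ω → H) (v : H) : Ω → 𝕜 :=
  fun t => inner 𝕜 (x t) v

/-- `C`-stable phase retrieval in `L_p(μ)` of a set `E` of functions:
`min_{|c| = 1} ‖f - c g‖_{L_p} ≤ C ‖|f| - |g|‖_{L_p}` for all `f, g ∈ E`. -/
def StablePR {𝕜 : Type*} [RCLike 𝕜] {Ω : Type*} [MeasurableSpace Ω] (μ : Measure Ω)
    (p : ENNReal) (C : ℝ) (E : Set (Ω → 𝕜)) : Prop :=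
  ∀ f ∈ E, ∀ g ∈ E, ∃ c : 𝕜, ‖c‖ = 1 ∧
    eLpNorm (fun t => f t - c * g t) p μ ≤
      ENNReal.ofReal C * eLpNorm (fun t => ‖f t‖ - ‖g t‖) p μ

/-- `κ`-stable phase retrieval of a finite family `(y_j)` in `H`. -/
def FiniteStablePR (𝕜 : Type*) [RCLike 𝕜] {H : Type*} [NormedAddCommGroup H]
    [InnerProductSpace 𝕜 H] (κ : ℝ) {m : ℕ} (y : Fin m → H) : Prop :=
  ∀ v w : H, ∃ c : 𝕜, ‖c‖ = 1 ∧
    ‖v - c • w‖ ≤ κ * √(∑ j, (‖inner 𝕜 (y j) v‖ - ‖inner 𝕜 (y j) w‖) ^ 2)

open Pool.H164.Spr in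
theorem result (C β : ℝ) (hC : 0 < C) (hβ : 0 < β) :
    ∃ D κ : ℝ, 0 < D ∧ 0 < κ ∧ ∀ n : ℕ, ∃ m : ℕ, (m : ℝ) ≤ D * n ∧
      ∀ (𝕜 : Type u) [RCLike 𝕜] (H : Type v) [NormedAddCommGroup H] [InnerProductSpace 𝕜 H]
        [FiniteDimensional 𝕜 H], Module.finrank 𝕜 H = n →
      ∀ (Ω : Type w) [MeasurableSpace Ω] (μ : Measure Ω) [IsProbabilityMeasure μ] (x : Ω → H),
        IsParsevalFrame 𝕜 μ x →
        StablePR μ 1 C (Set.range (analysis 𝕜 x)) →
        StablePR μ 2 C (Set.range (analysis 𝕜 x)) →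
        (∀ t, ‖x t‖ ≤ β * √n) →
        ∃ t : Fin m → Ω,
          Submodule.span 𝕜 (Set.range fun j => (((√m)⁻¹ : ℝ) : 𝕜) • x (t j)) = ⊤ ∧
          FiniteStablePR 𝕜 κ (fun j => (((√m)⁻¹ : ℝ) : 𝕜) • x (t j)) := by
  set δ : ℝ := min (1 / (C ^ 2 * (1 + 2 * β ^ 2))) (1 / β) with hδdef
  have hδ : 0 < δ := lt_min (by positivity) (by positivity)
  set K : ℝ := (64 * C * β / δ) ^ 2 with hK
  have hK0 : 0 < K := by positivity
  refine ⟨K + 1, 2 * C / δ, by positivity, by positivity, fun n => ?_⟩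
  rcases Nat.eq_zero_or_pos n with hn | hn
  · subst hn
    refine ⟨0, by simp, ?_⟩
    intro 𝕜 _ H _ _ _ hfin Ω _ μ _ x _ _ _ _
    have hsub : Subsingleton H := Module.finrank_zero_iff.1 hfin
    refine ⟨fun j => j.elim0, Subsingleton.elim _ _, fun v w => ⟨1, by simp, ?_⟩⟩
    rw [Subsingleton.elim v w, one_smul, sub_self, norm_zero]
    positivity
  · refine ⟨⌈K * n⌉₊, ?_, ?_⟩
    · have h1 := (Nat.ceil_lt_add_one (a := K * n) (by positivity)).le
      have h2 : (1:ℝ) ≤ n := by exact_mod_cast hn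
      linarith
    · intro 𝕜 _ H _ _ _ hfin Ω _ μ _ x hfr hs1 hs2 hR
      have hnR : (0:ℝ) < n := by exact_mod_cast hn
      set m := ⌈K * n⌉₊ with hm
      have hKm : K * n ≤ m := Nat.le_ceil _
      have hm0 : 0 < m := Nat.ceil_pos.2 (by positivity)
      have hmR : (0:ℝ) < m := by exact_mod_cast hm0
      have hx := hfr.measurable
      set R : ℝ := β * √n with hRdef
      have hR0 : 0 < R := by positivity
      -- conversion of the hypotheses
      have hP : ∀ v, ∫ t, ‖inner 𝕜 (x t) v‖ ^ 2 ∂μ = ‖v‖ ^ 2 := by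
        intro v
        have h := hfr.parseval v
        have h2 := ofReal_integral_eq_lintegral_ofReal (integrable_sq (μ := μ) hx hR v)
          (Filter.Eventually.of_forall fun t => by positivity)
        have h3 : ∀ t, ENNReal.ofReal (‖inner 𝕜 (x t) v‖ ^ 2) = ‖inner 𝕜 (x t) v‖ₑ ^ 2 := by
          intro t
          rw [ENNReal.ofReal_pow (norm_nonneg _), ofReal_norm]
        simp only [h3] at h2
        rw [h, ENNReal.ofReal_eq_ofReal_iff (integral_nonneg fun t => by positivity)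
          (by positivity)] at h2
        exact h2
      have h1 : ∀ v w : H, ∃ c : 𝕜, ‖c‖ = 1 ∧ ∫ t, ‖inner 𝕜 (x t) (v - c • w)‖ ∂μ ≤
          C * ∫ t, |‖inner 𝕜 (x t) v‖ - ‖inner 𝕜 (x t) w‖| ∂μ := by
        intro v w
        obtain ⟨c, hc, hle⟩ := hs1 _ ⟨v, rfl⟩ _ ⟨w, rfl⟩
        refine ⟨c, hc, ?_⟩
        have e1 : (fun t => analysis 𝕜 x v t - c * analysis 𝕜 x w t) =
            fun t => inner 𝕜 (x t) (v - c • w) := by
          funext t
          simp only [analysis, inner_sub_right, inner_smul_right]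
        rw [e1, eLpNorm_one_eq_lintegral_enorm, eLpNorm_one_eq_lintegral_enorm,
          ← ofReal_integral_norm_eq_lintegral_enorm, ← ofReal_integral_norm_eq_lintegral_enorm,
          ← ENNReal.ofReal_mul hC.le, ENNReal.ofReal_le_ofReal_iff] at hle
        · exact hle
        · exact mul_nonneg hC.le (integral_nonneg fun t => norm_nonneg _)
        · exact (integrable_norm (μ := μ) hx hR v).sub (integrable_norm hx hR w)
        · refine (integrable_norm_iff ?_).1 (integrable_norm (μ := μ) hx hR _)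
          exact (hx _).aestronglyMeasurable
      have h2 : ∀ v w : H, ∃ c : 𝕜, ‖c‖ = 1 ∧ ‖v - c • w‖ ^ 2 ≤
          C ^ 2 * ∫ t, (‖inner 𝕜 (x t) v‖ - ‖inner 𝕜 (x t) w‖) ^ 2 ∂μ := by
        intro v w
        obtain ⟨c, hc, hle⟩ := hs2 _ ⟨v, rfl⟩ _ ⟨w, rfl⟩
        refine ⟨c, hc, ?_⟩
        have e1 : (fun t => analysis 𝕜 x v t - c * analysis 𝕜 x w t) =
            fun t => inner 𝕜 (x t) (v - c • w) := by
          funext t
          simp only [analysis, inner_sub_right, inner_smul_right]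
        rw [e1] at hle
        have m1 : MemLp (fun t => (inner 𝕜 (x t) (v - c • w) : 𝕜)) 2 μ :=
          MemLp.of_bound (hx _).aestronglyMeasurable (R * ‖v - c • w‖)
            (Filter.Eventually.of_forall fun t => inner_bdd hR _ t)
        have m2 : MemLp (fun t => ‖analysis 𝕜 x v t‖ - ‖analysis 𝕜 x w t‖) 2 μ := by
          refine MemLp.of_bound ((hx v).norm.sub (hx w).norm).aestronglyMeasurable
            (R * ‖v‖ + R * ‖w‖) (Filter.Eventually.of_forall fun t => ?_)
          have i1 := inner_bdd (𝕜 := 𝕜) hR v t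
          have i2 := inner_bdd (𝕜 := 𝕜) hR w t
          rw [Real.norm_eq_abs, abs_le]
          simp only [analysis]
          constructor <;>
            linarith [norm_nonneg (inner 𝕜 (x t) v), norm_nonneg (inner 𝕜 (x t) w)]
        rw [m1.eLpNorm_eq_integral_rpow_norm (by norm_num) (by norm_num),
          m2.eLpNorm_eq_integral_rpow_norm (by norm_num) (by norm_num),
          ← ENNReal.ofReal_mul hC.le, ENNReal.ofReal_le_ofReal_iff (by positivity)] at hle
        simp only [ENNReal.toReal_ofNat, Real.rpow_ofNat, Real.norm_eq_abs, sq_abs] at hle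
        rw [hP, show ((2:ℝ)⁻¹) = 1 / 2 by norm_num, ← Real.sqrt_eq_rpow, ← Real.sqrt_eq_rpow,
          Real.sqrt_sq (norm_nonneg _)] at hle
        have hle2 := pow_le_pow_left₀ (norm_nonneg _) hle 2
        rw [mul_pow, Real.sq_sqrt (integral_nonneg fun t => sq_nonneg _)] at hle2
        exact hle2
      have hl1 := fun e he => l1_lower (𝕜 := 𝕜) (μ := μ) hn hfin hx hβ hR hP hC h2 e he
      -- choice of `m`
      have hcond : 16 * R * √m ≤ m * (δ / (4 * C)) := by
        have e1 : √K = 64 * C * β / δ := Real.sqrt_sq (by positivity)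
        have e2 : √K * √n ≤ √m := by
          rw [← Real.sqrt_mul hK0.le]
          exact Real.sqrt_le_sqrt hKm
        rw [e1] at e2
        have e3 : (m : ℝ) = √m * √m := (Real.mul_self_sqrt hmR.le).symm
        have e4 : 16 * R ≤ √m * (δ / (4 * C)) := by
          have e5 : 16 * R = (64 * C * β / δ * √n) * (δ / (4 * C)) := by
            rw [hRdef]; field_simp; norm_num
          rw [e5]
          exact mul_le_mul_of_nonneg_right e2 (by positivity)
        calc 16 * R * √m ≤ √m * (δ / (4 * C)) * √m :=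
              mul_le_mul_of_nonneg_right e4 (Real.sqrt_nonneg _)
          _ = √m * √m * (δ / (4 * C)) := by ring
          _ = m * (δ / (4 * C)) := by rw [← e3]
      obtain ⟨t, ht⟩ := selection' (μ := μ) hx hR0 hR hC hδ hl1 h1 hcond hm0
      refine ⟨t, ?_, ht⟩
      -- spanning
      rw [← Submodule.orthogonal_eq_bot_iff, Submodule.eq_bot_iff]
      intro v hv
      rw [Submodule.mem_orthogonal] at hv
      obtain ⟨c, _, hle⟩ := ht v 0
      have hz : ∀ j, inner 𝕜 ((((√m)⁻¹ : ℝ) : 𝕜) • x (t j)) v = 0 := fun j =>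
        hv _ (Submodule.subset_span ⟨j, rfl⟩)
      simp only [hz, smul_zero, sub_zero, norm_zero, inner_zero_right, sub_self] at hle
      have hle' : ‖v‖ ≤ 0 := by simpa using hle
      exact norm_le_zero_iff.1 hle'

end Pool.Agent.Results.MP_07ff6b_an.DiscreteSPR
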